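import Pool.Agent.U798.FA.G

/-!
# An atomless measure is determined by the dilates of an arc of length one third

Let `μ` be an atomless probability measure on the circle. We show that `μ` is determined by the masses
`μ {x | k x ∈ [0, 1/3)}`, `k` a nonzero integer. In particular Furstenberg's conjecture for `p, q`
holds if and only if every atomless `×p, ×q`-invariant probability measure gives the mass `1/3` to the
arc `[0, 1/3)`; the same is true for every other proper arc with endpoints in `{0, 1/3, 2/3, 1}`, and for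
every arc with endpoints in `{0, 1/4, 1/2, 3/4, 1}` except `[0, 1/2)`, `[1/2, 1)` and `[0, 1)`.

The theorem has a quantitative form, which applies to every possible counterexample to the conjecture:
if `|μ^(n)| > ε` then there are `k ≤ exp (C ε ^ (-η))` and an arc `[d/b, (d+1)/b)` such that the mass of
`{x | k n x ∈ [d/b, (d+1)/b)}` differs from `1/b` by more than `ε ^ (1 + η) / C`; here `b ≥ 3` and
`η > 0` are arbitrary and `C` depends only on them. More generally, this holds for the difference of the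
Fourier coefficients and of the masses of two atomless measures.

Proof. By Davenport's estimate `∑_{k ≤ K} μ(k) e(k y) ≪ K (log K)^(-A)` (in the classes modulo `b`) the
character `e(y)` is, for irrational `y`, the sum of a uniformly convergent series of linear combinations
of the indicator functions of the arcs `[d/b, (d+1)/b)` at the points `k y`. For the second statement we
use that the class of invariant measures is closed under `x ↦ k x`, convolution and reflection.
-/

set_option autoImplicit false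

open MeasureTheory

namespace Pool.Agent.U610.Moved.DilatesOfAnArc

/-- the arc of the circle `ℝ / ℤ` from `α` (included) to `β` (excluded) -/
def arc (α β : ℝ) : Set UnitAddCircle := (fun t : ℝ => (t : UnitAddCircle)) '' Set.Ico α β

/-- `μ` is an atomless probability measure on the circle -/
def Atomless (μ : Measure UnitAddCircle) : Prop := IsProbabilityMeasure μ ∧ ∀ x, μ {x} = 0

/-- `μ` is invariant under `x ↦ n x` -/
def Inv (n : ℕ) (μ : Measure UnitAddCircle) : Prop :=
  MeasurePreserving (fun x : UnitAddCircle => n • x) μ μ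

/-- **(1)** Two atomless probability measures on the circle which give the same masses to the sets
`{x | k x ∈ [0, 1/3)}`, for all nonzero integers `k`, are equal.
**(2)** For `b ≥ 3` and `η > 0` there is `C` such that for all atomless probability measures `μ, ν`, all
`n ≥ 1` and all `0 < ε ≤ 1`: if the `n`-th Fourier coefficients of `μ` and `ν` differ by more than `ε`,
then there are `1 ≤ k ≤ exp (C ε ^ (-η))` and `d < b` such that the masses of
`{x | k n x ∈ [d/b, (d+1)/b)}` for `μ` and for `ν` differ by more than `ε ^ (1 + η) / C`.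
**(3)** Let `N` be `3` or `4`, `0 ≤ a < c ≤ N`, and not both `a / N` and `c / N` in `{0, 1/2, 1}`. For all
`p, q` the following are equivalent: every atomless probability measure on the circle invariant under
`x ↦ p x` and `x ↦ q x` is Lebesgue measure; every such measure gives the mass `(c - a) / N` to the arc
`[a / N, c / N)`. In particular (`N = 3`, `a = 0`, `c = 1`) the frozen statement `S05473` holds if and
only if for all multiplicatively independent `p, q` all these measures give `[0, 1/3)` the mass `1/3`. -/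
theorem result :
    (∀ μ ν : Measure UnitAddCircle, Atomless μ → Atomless ν →
      (∀ k : ℤ, k ≠ 0 → μ.real {x | k • x ∈ arc 0 (1 / 3)} = ν.real {x | k • x ∈ arc 0 (1 / 3)}) →
      μ = ν) ∧
    (∀ b : ℕ, 3 ≤ b → ∀ η : ℝ, 0 < η → ∃ C : ℝ, 1 ≤ C ∧
      ∀ μ ν : Measure UnitAddCircle, Atomless μ → Atomless ν → ∀ n : ℕ, 1 ≤ n →
        ∀ ε : ℝ, 0 < ε → ε ≤ 1 →
          ε < ‖∫ x, fourier (n : ℤ) x ∂μ - ∫ x, fourier (n : ℤ) x ∂ν‖ →
          ∃ k : ℕ, 1 ≤ k ∧ (k : ℝ) ≤ Real.exp (C * ε ^ (-η)) ∧ ∃ d : ℕ, d < b ∧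
            ε ^ (1 + η) / C < |μ.real {x | (k * n) • x ∈ arc ((d : ℝ) / b) (((d : ℝ) + 1) / b)} -
              ν.real {x | (k * n) • x ∈ arc ((d : ℝ) / b) (((d : ℝ) + 1) / b)}|) ∧
    (∀ p q N a c : ℕ, (N = 3 ∨ N = 4) → a < c → c ≤ N → ¬ (N ∣ 2 * a ∧ N ∣ 2 * c) →
      ((∀ μ : Measure UnitAddCircle, Atomless μ → Inv p μ → Inv q μ →
          μ.real (arc ((a : ℝ) / N) ((c : ℝ) / N)) = ((c : ℝ) - a) / N) ↔
        ∀ μ : Measure UnitAddCircle, Atomless μ → Inv p μ → Inv q μ →
          μ = (volume : Measure UnitAddCircle))) ∧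
    ((∀ p q : ℕ, 2 ≤ p → 2 ≤ q → Irrational (Real.log (p : ℝ) / Real.log (q : ℝ)) →
        ∀ μ : Measure UnitAddCircle, IsProbabilityMeasure μ → NullSingletonClass μ →
          MeasurePreserving (fun x : UnitAddCircle => p • x) μ μ →
          MeasurePreserving (fun x : UnitAddCircle => q • x) μ μ →
          μ = (volume : Measure UnitAddCircle)) ↔
      ∀ p q : ℕ, 2 ≤ p → 2 ≤ q → Irrational (Real.log (p : ℝ) / Real.log (q : ℝ)) →
        ∀ μ : Measure UnitAddCircle, Atomless μ → Inv p μ → Inv q μ →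
          μ.real (arc 0 (1 / 3)) = 1 / 3) := by
  have part3 : ∀ p q N a c : ℕ, (N = 3 ∨ N = 4) → a < c → c ≤ N → ¬ (N ∣ 2 * a ∧ N ∣ 2 * c) →
      ((∀ μ : Measure UnitAddCircle, Atomless μ → Inv p μ → Inv q μ →
          μ.real (arc ((a : ℝ) / N) ((c : ℝ) / N)) = ((c : ℝ) - a) / N) ↔
        ∀ μ : Measure UnitAddCircle, Atomless μ → Inv p μ → Inv q μ →
          μ = (volume : Measure UnitAddCircle)) := by
    intro p q N a c hN hac hc hne
    have h := Pool.Agent.U798.FA.one_arc p q N a c
      (by rcases hN with h | h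
          · exact Or.inl h
          · exact Or.inr (Or.inl h)) hac hc hne
    constructor
    · intro h1 μ m1 m3 m4
      exact h.1 (fun μ hμ => h1 μ ⟨hμ.1, fun x => hμ.2.1.measure_singleton x⟩ hμ.2.2.1 hμ.2.2.2) μ
        ⟨m1.1, ⟨m1.2⟩, m3, m4⟩
    · intro h1 μ m1 m3 m4
      exact h.2 (fun μ hμ => h1 μ ⟨hμ.1, fun x => hμ.2.1.measure_singleton x⟩ hμ.2.2.1 hμ.2.2.2) μ
        ⟨m1.1, ⟨m1.2⟩, m3, m4⟩
  refine ⟨?_, ?_, part3, ?_⟩
  · intro μ ν hμ hν h
    have i1 := hμ.1
    have i2 := hν.1
    have : NullSingletonClass μ := ⟨hμ.2⟩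
    have : NullSingletonClass ν := ⟨hν.2⟩
    refine Pool.Agent.U798.FA.one_third μ ν fun k hk => ?_
    have hA := Pool.Agent.U798.FA.meas_arc 0 (1 / 3) le_rfl (by norm_num)
    unfold Pool.Agent.U798.FA.dil
    rw [map_measureReal_apply (Pool.Agent.U798.FA.meas_zsmul k) hA,
      map_measureReal_apply (Pool.Agent.U798.FA.meas_zsmul k) hA]
    exact h k hk
  · intro b hb η hη
    obtain ⟨C, hC, h⟩ := Pool.Agent.U798.FA.quant_fourier b hb η hη
    refine ⟨C, hC, fun μ ν hμ hν n hn ε hε hε1 hlt => ?_⟩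
    by_contra hcon
    push Not at hcon
    refine absurd (h μ ν hμ.1 hν.1 ⟨hμ.2⟩ ⟨hν.2⟩ n hn ε hε hε1 fun k hk1 hk2 d hd => ?_)
      (not_le.2 hlt)
    exact hcon k hk1 hk2 d hd
  · constructor
    · intro h p q hp hq hpq
      have h1 := (part3 p q 3 0 1 (Or.inl rfl) (by norm_num) (by norm_num) (by norm_num)).2
        (fun μ m1 m2 m3 => h p q hp hq hpq μ m1.1 ⟨m1.2⟩ m2 m3)
      intro μ m1 m2 m3
      have h2 := h1 μ m1 m2 m3
      have e : arc (((0 : ℕ) : ℝ) / ((3 : ℕ) : ℝ)) (((1 : ℕ) : ℝ) / ((3 : ℕ) : ℝ)) =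
          arc 0 (1 / 3) := by
        congr 1 <;> norm_num
      rw [e] at h2
      rw [h2]
      norm_num
    · intro h p q hp hq hpq μ m1 m2 m3 m4
      refine (part3 p q 3 0 1 (Or.inl rfl) (by norm_num) (by norm_num) (by norm_num)).1
        (fun μ g1 g2 g3 => ?_) μ ⟨m1, fun x => m2.measure_singleton x⟩ m3 m4
      have h2 := h p q hp hq hpq μ g1 g2 g3
      have e : arc (((0 : ℕ) : ℝ) / ((3 : ℕ) : ℝ)) (((1 : ℕ) : ℝ) / ((3 : ℕ) : ℝ)) =
          arc 0 (1 / 3) := by
        congr 1 <;> norm_num
      rw [e, h2]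
      norm_num

end Pool.Agent.U610.Moved.DilatesOfAnArc
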