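import Pool.Agent.U530.SD.Scale
set_option autoImplicit false

/-!
# Stein's restriction conjecture is decided by one sequence of caps, by one density which is smooth
# off a point, and by typical continuous densities

Let `n ≥ 2` and let `σ` be the surface measure of the unit sphere of `ℝ^n`. For `p ≥ 1` let (S_p) be
the statement: `(g dσ)^ ∈ L^p(ℝ^n)` for all bounded densities `g`. Q1 says that (S_p) is true for all
`n ≥ 3` and all `p > 2n/(n-1)`. We say that a bounded density `g` is *decisive* (`Decides`) if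

* for **every** `p ≥ 1` the single statement `(g dσ)^ ∈ L^p(ℝ^n)` is equivalent to (S_p), and
* for all `p ≥ 1` and `0 ≤ a < b` the estimates `‖(g dσ)^‖_{L^p(B_R)} ≤ C R^a` (`R ≥ 1`) for this `g`
  imply the local restriction estimate `‖(h dσ)^‖_{L^p(B_R)} ≤ C' R^b ‖h‖_∞` for all `h` and `R ≥ 1`.

Theorem. (S_p) is equivalent to the norm inequality `‖(g dσ)^‖_p ≤ C_p ‖g‖_∞` for all `g`. Let `x₀` be a
point of the sphere and let `O` be any open subset of the sphere which accumulates at `x₀` (for example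
an arbitrarily thin cusp).

* There is a family of pairwise disjoint closed round caps in `O` which accumulates at `x₀` only and
  whose indicator function is decisive.
* For each positive nondecreasing `η` there is a decisive density `G` with values in `[0, 1]` which is
  the restriction of an everywhere differentiable function on `ℝ^n` of class `C^∞` outside the point
  `x₀`, which vanishes outside `O`, and which satisfies `G(x) ≤ η(|x - x₀|)`; so it can be as flat at
  `x₀` as we like.
* Typical continuous densities (all outside a set of first category in the Banach space of the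
  continuous functions on the sphere) are decisive.
* So Q1 for `n` is equivalent to its special case for the unions of disjoint closed caps which
  accumulate at the one point `x₀` within `O`. For finitely many caps (and the full range of `p`) it
  is known (starting result `RidgeDensities`).

Proof. By Vitali's covering theorem the finite unions of disjoint closed caps approximate all
measurable sets, the averages of indicator functions approximate all densities with values in
`[0, 1]`, and by rotations a bound for densities in one small cap gives a bound for all densities. So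
if a uniform estimate is false, then in every small cap there are finite unions of disjoint caps (and
smooth densities) for which the norms are arbitrarily large. The sequences of such densities in a
fixed sequence of disjoint caps which converges to `x₀` form a Baire space, and the transform of the
sum depends continuously on the sequence; so for typical sequences the norms are infinite for a
countable set of norms which is cofinal in the set of all norms for which the estimate is false.
-/

open MeasureTheory Set Metric Complex Filter Topology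
open scoped ENNReal RealInnerProductSpace ContDiff

namespace Pool.Agent.Results.MP_6cbfb8_an.OneSingularPoint

/-- `ℝⁿ`. -/
abbrev E (n : ℕ) := EuclideanSpace ℝ (Fin n)

/-- the unit sphere -/
abbrev Sph (n : ℕ) : Type := sphere (0 : E n) 1

/-- the Fourier transform of the measure `g dσ` -/
noncomputable def ft {n : ℕ} (g : Sph n → ℂ) (ξ : E n) : ℂ :=
  ∫ x, Complex.exp (-(2 * Real.pi * ⟪(x : E n), ξ⟫ : ℝ) * I) * g x
    ∂((volume : Measure (E n)).toSphere)

/-- For all bounded densities `g` the Fourier transform of `g dσ` is in `L^p`. -/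
def AllDensities (n : ℕ) (p : ℝ) : Prop :=
  ∀ g : Sph n → ℂ, Measurable g → (∃ M : ℝ, ∀ x, ‖g x‖ ≤ M) →
    MemLp (ft g) (ENNReal.ofReal p) volume

/-- The norm inequality `‖(g dσ)^‖_p ≤ C ‖g‖_∞` with some constant `C`. -/
def UniformBound (n : ℕ) (p : ℝ) : Prop :=
  ∃ C : ℝ, ∀ g : Sph n → ℂ, Measurable g → (∀ x, ‖g x‖ ≤ 1) →
    eLpNorm (ft g) (ENNReal.ofReal p) volume ≤ ENNReal.ofReal C

/-- `‖(g dσ)^‖_{L^p(B_R)} ≤ C R^a` for all `R ≥ 1` -/
def Growth {n : ℕ} (g : Sph n → ℂ) (p a C : ℝ) : Prop :=
  ∀ R : ℝ, 1 ≤ R → eLpNorm (ft g) (ENNReal.ofReal p) (volume.restrict (ball (0 : E n) R)) ≤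
    ENNReal.ofReal (C * R ^ a)

/-- The density `g` is decisive: `(g dσ)^ ∈ L^p` is equivalent to the statement for all densities,
for every `p ≥ 1`; and the local estimates with the factor `R^a` for `g` imply the local estimates
with the factor `R^b` for all densities, uniformly, if `b > a`. -/
def Decides {n : ℕ} (g : Sph n → ℂ) : Prop :=
  (∀ p : ℝ, 1 ≤ p → (MemLp (ft g) (ENNReal.ofReal p) volume ↔ AllDensities n p)) ∧
  ∀ p a b : ℝ, 1 ≤ p → 0 ≤ a → a < b → (∃ C : ℝ, Growth g p a C) →
    ∃ C : ℝ, ∀ h : Sph n → ℂ, Measurable h → (∀ x, ‖h x‖ ≤ 1) → Growth h p b C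

/-- `S` is a set of pairwise disjoint closed caps (centre and radius) in the subset `O` of the
sphere, and for every `ε > 0` only finitely many of them are not contained in the cap of radius `ε`
about `x₀`. -/
def CapsTo {n : ℕ} (x₀ : Sph n) (O : Set (Sph n)) (S : Set (Sph n × ℝ)) : Prop :=
  (∀ b ∈ S, 0 < b.2 ∧ closedBall b.1 b.2 ⊆ O) ∧
  S.PairwiseDisjoint (fun b => closedBall b.1 b.2) ∧
  ∀ ε : ℝ, 0 < ε → {b ∈ S | ¬ closedBall b.1 b.2 ⊆ ball x₀ ε}.Finite

/-- the indicator function of the union of the caps -/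
noncomputable def capsDensity {n : ℕ} (S : Set (Sph n × ℝ)) : Sph n → ℂ :=
  (⋃ b ∈ S, closedBall b.1 b.2).indicator (fun _ => 1)

/-- `G` has values in `[0, 1]`, is differentiable on `ℝ^n` and of class `C^∞` outside the point `x₀`,
is at most `η(|x - x₀|)`, and vanishes on the sphere outside `O`. -/
def SmoothOff {n : ℕ} (x₀ : Sph n) (O : Set (Sph n)) (η : ℝ → ℝ) (G : E n → ℝ) : Prop :=
  (∀ x, 0 ≤ G x ∧ G x ≤ 1) ∧ Differentiable ℝ G ∧ ContDiffOn ℝ ∞ G {(x₀ : E n)}ᶜ ∧
  (∀ x, x ≠ (x₀ : E n) → G x ≤ η (dist x x₀)) ∧ ∀ x : Sph n, x ∉ O → G x = 0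

/-- the restriction of `G` to the sphere -/
noncomputable def restr {n : ℕ} (G : E n → ℝ) (x : Sph n) : ℂ := (G x : ℂ)

/-- Q1 in dimension `n` -/
def Stein (n : ℕ) : Prop := ∀ p : ℝ, 2 * (n : ℝ) / (n - 1) < p → AllDensities n p

/-- Q1 in dimension `n` for the unions of disjoint caps in `O` which accumulate only at `x₀` -/
def SteinCaps {n : ℕ} (x₀ : Sph n) (O : Set (Sph n)) : Prop :=
  ∀ S : Set (Sph n × ℝ), CapsTo x₀ O S → ∀ p : ℝ, 2 * (n : ℝ) / (n - 1) < p →
    MemLp (ft (capsDensity S)) (ENNReal.ofReal p) volume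

/-- typical continuous densities are decisive -/
def TypicalDecides (n : ℕ) : Prop := ∀ᶠ g : C(Sph n, ℂ) in residual C(Sph n, ℂ), Decides g

open Pool.Agent.U530.SD

theorem bound_of_bd {n : ℕ} {p : ℝ} (h : Bd (NR n p 0)) : UniformBound n p := bound_ftS h

theorem all_of_bound {n : ℕ} {p : ℝ} (h : UniformBound n p) : AllDensities n p := by
  obtain ⟨C, h⟩ := h
  rintro g hg ⟨M, hM⟩
  set M' : ℝ := max M 1 with hM'
  have hM0 : 0 < M' := lt_of_lt_of_le one_pos (le_max_right _ _)
  have hm : AEStronglyMeasurable (ft g) volume := (ftS_meas hg hM).aestronglyMeasurable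
  refine ⟨hm, ?_⟩
  have h1 := h (fun x => ((M'⁻¹ : ℝ) : ℂ) * g x) (hg.const_mul _) (fun x => by
    rw [norm_mul, Complex.norm_real, Real.norm_of_nonneg (inv_pos.2 hM0).le,
      inv_mul_le_iff₀ hM0, mul_one]
    exact (hM x).trans (le_max_left _ _))
  have h2 : ft (fun x => ((M'⁻¹ : ℝ) : ℂ) * g x) = ((M'⁻¹ : ℝ) : ℂ) • ft g := by
    ext ξ
    unfold ft
    rw [Pi.smul_apply, smul_eq_mul, ← integral_const_mul]
    congr 1
    ext x
    ring
  rw [h2, eLpNorm_const_smul] at h1
  by_contra hcon
  rw [not_lt, top_le_iff] at hcon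
  rw [hcon, ENNReal.mul_top] at h1
  · exact absurd h1 (by simp)
  · rw [← ofReal_norm, Complex.norm_real, Real.norm_of_nonneg (inv_pos.2 hM0).le]
    have := inv_pos.2 hM0
    simpa using this

/-- from the abstract statement to `Decides` -/
theorem decides_of {n : ℕ} {g : Sph n → ℂ} (hg : Measurable g) {M : ℝ}
    (hM : ∀ x, ‖g x‖ ≤ M) (h : Pool.Agent.U530.SD.Decides n (TS g)) : Decides g := by
  refine ⟨fun p hp => ⟨fun h1 => ?_, fun h1 => h1 g hg ⟨M, hM⟩⟩, fun p a b hp ha hab h1 => ?_⟩
  · exact all_of_bound (bound_of_bd (h.1 p hp (memLp_ftS h1 (TS_meas hg hM))))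
  · obtain ⟨C, hC⟩ := h1
    exact local_ftS (h.2 p a b hp ha hab (growth_ftS (TS_meas hg hM) hC))

theorem caps_meas {n : ℕ} {x₀ : sphere (0 : E n) 1} {O : Set (Sph n)}
    {S : Set (Sph n × ℝ)} (h : CapsTo x₀ O S) : Measurable (capsDensity S) := by
  have hc : S.Countable := by
    refine h.2.1.countable_of_nonempty_interior fun b hb => ?_
    exact (nonempty_ball.2 (h.1 b hb).1).mono ball_subset_interior_closedBall
  exact measurable_const.indicator
    (MeasurableSet.biUnion hc fun b _ => isClosed_closedBall.measurableSet)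

theorem caps_le {n : ℕ} (S : Set (Sph n × ℝ)) (x : sphere (0 : E n) 1) :
    ‖capsDensity S x‖ ≤ 1 := by
  unfold capsDensity
  by_cases hx : x ∈ ⋃ b ∈ S, closedBall b.1 b.2
  · rw [indicator_of_mem hx]; simp
  · rw [indicator_of_notMem hx]; simp

theorem exists_pts {n : ℕ} {x₀ : sphere (0 : E n) 1} {O : Set (Sph n)}
    (hO : IsOpen O) (hacc : x₀ ∈ closure (O \ {x₀})) :
    ∃ (O' : Set (E n)) (x : ℕ → E n) (ρ : ℕ → ℝ), Subtype.val ⁻¹' O' = O ∧
      Pts (x₀ : E n) O' x ρ := by
  obtain ⟨O', hO', rfl⟩ := isOpen_induced_iff.1 hO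
  obtain ⟨x, ρ, hP⟩ := exists_points hO' (x₀ := (x₀ : E n)) fun ε hε => by
    obtain ⟨y, ⟨hyO, hy⟩, hd⟩ := Metric.mem_closure_iff.1 hacc ε hε
    have hne : (y : E n) ≠ x₀ := fun h => hy (Subtype.ext h)
    refine ⟨y, hyO, by simp, dist_pos.2 hne, ?_⟩
    rw [dist_comm]
    exact hd
  exact ⟨O', x, ρ, rfl, hP⟩

theorem exists_caps {n : ℕ} (hn : 2 ≤ n) {x₀ : sphere (0 : E n) 1} {O : Set (Sph n)}
    (hO : IsOpen O) (hacc : x₀ ∈ closure (O \ {x₀})) :
    ∃ S : Set (Sph n × ℝ), CapsTo x₀ O S ∧ Decides (capsDensity S) := by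
  obtain ⟨O', x, ρ, hOO, hP⟩ := exists_pts hO hacc
  obtain ⟨F, hF, hD⟩ := core_caps hn hP
  set S : Set (Sph n × ℝ) := {b | ∃ k, ((b.1 : E n), b.2) ∈ F k} with hS
  have hball : ∀ (y : sphere (0 : E n) 1) (r : ℝ),
      closedBall y r = Subtype.val ⁻¹' closedBall (y : E n) r := fun y r => rfl
  have hunion : (⋃ b ∈ S, closedBall b.1 b.2) =
      (Subtype.val ⁻¹' (⋃ k, un (F k)) : Set (Sph n)) := by
    ext w
    simp only [mem_iUnion, mem_preimage, un]
    constructor
    · rintro ⟨b, ⟨k, hk⟩, hw⟩
      exact ⟨k, _, hk, hw⟩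
    · rintro ⟨k, b, hb, hw⟩
      have hb1 : b.1 ∈ sphere (0 : E n) 1 := by
        have := ((hF k).1 b hb).1
        simpa using this
      exact ⟨(⟨b.1, hb1⟩, b.2), ⟨k, hb⟩, hw⟩
  have hCaps : CapsTo x₀ O S := by
    refine ⟨?_, ?_, ?_⟩
    · rintro b ⟨k, hk⟩
      refine ⟨((hF k).1 _ hk).2.1, fun w hw => ?_⟩
      rw [← hOO]
      exact hP.sub k (((hF k).1 _ hk).2.2 (show (w : E n) ∈ closedBall (b.1 : E n) b.2 from hw))
    · rintro b ⟨k, hk⟩ b' ⟨k', hk'⟩ hne
      rw [Function.onFun, disjoint_left]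
      intro w hw hw'
      by_cases hkk : k = k'
      · subst hkk
        have hne' : ((b.1 : E n), b.2) ≠ ((b'.1 : E n), b'.2) := fun h => hne (by
          rw [Prod.mk.injEq] at h
          exact Prod.ext (Subtype.ext h.1) h.2)
        exact (disjoint_left.1 ((hF k).2 (Finset.mem_coe.2 hk) (Finset.mem_coe.2 hk') hne'))
          (show (w : E n) ∈ closedBall (b.1 : E n) b.2 from hw)
          (show (w : E n) ∈ closedBall (b'.1 : E n) b'.2 from hw')
      · exact hP.disj hkk
          (((hF k).1 _ hk).2.2 (show (w : E n) ∈ closedBall (b.1 : E n) b.2 from hw))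
          (((hF k').1 _ hk').2.2 (show (w : E n) ∈ closedBall (b'.1 : E n) b'.2 from hw'))
    · intro ε hε
      obtain ⟨K, hK⟩ := (hP.tendsto.eventually_lt_const hε).exists_forall_of_atTop
      have hinj : Function.Injective
          (fun b : sphere (0 : E n) 1 × ℝ => ((b.1 : E n), b.2)) := by
        rintro ⟨a, r⟩ ⟨a', r'⟩ h
        simp only [Prod.mk.injEq] at h
        exact Prod.ext (Subtype.ext h.1) h.2
      have hfin : (⋃ k ∈ Finset.range K, (fun b : sphere (0 : E n) 1 × ℝ => ((b.1 : E n), b.2)) ⁻¹'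
          (F k : Set (E n × ℝ))).Finite :=
        Set.Finite.biUnion (Finset.finite_toSet _) fun k _ =>
          (F k).finite_toSet.preimage hinj.injOn
      refine hfin.subset ?_
      rintro b ⟨⟨k, hk⟩, hnot⟩
      rw [mem_iUnion₂]
      refine ⟨k, ?_, hk⟩
      rw [Finset.mem_range]
      by_contra hcon
      refine hnot fun w hw => ?_
      have h1 := (hP.cap_dist (((hF k).1 _ hk).2.2
        (show (w : E n) ∈ closedBall (b.1 : E n) b.2 from hw))).2
      show dist (w : E n) x₀ < ε
      linarith [hK k (not_lt.1 hcon)]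
  refine ⟨S, hCaps, decides_of (caps_meas hCaps) (caps_le S) ?_⟩
  have hm : MeasurableSet (⋃ k, un (F k)) := MeasurableSet.iUnion fun k => un_meas _
  have he : (fun y : sphere (0 : E n) 1 => (⋃ k, un (F k)).indicator (fun _ => (1 : ℂ)) (y : E n)) =
      capsDensity S := by
    ext y
    unfold capsDensity
    rw [hunion]
    rfl
  rw [← he, TS_T _ (one_meas hm)]
  exact hD

/-- **Theorem.** See the header. -/
theorem result (n : ℕ) (hn : 2 ≤ n) :
    -- the qualitative and the quantitative statements are equivalent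
    (∀ p : ℝ, 1 ≤ p → (AllDensities n p ↔ UniformBound n p)) ∧
    (∀ (x₀ : Sph n) (O : Set (Sph n)), IsOpen O → x₀ ∈ closure (O \ {x₀}) →
      -- a decisive union of caps
      (∃ S : Set (Sph n × ℝ), CapsTo x₀ O S ∧ Decides (capsDensity S)) ∧
      -- a decisive density which is smooth off one point
      (∀ η : ℝ → ℝ, Monotone η → (∀ t : ℝ, 0 < t → 0 < η t) →
        ∃ G : E n → ℝ, SmoothOff x₀ O η G ∧ Decides (restr G)) ∧
      -- Q1 is equivalent to its special case for unions of disjoint caps
      (Stein n ↔ SteinCaps x₀ O)) ∧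
    TypicalDecides n := by
  have h2n : (1 : ℝ) ≤ 2 * (n : ℝ) / (n - 1) := by
    have : (2 : ℝ) ≤ n := by exact_mod_cast hn
    rw [le_div_iff₀ (by linarith)]
    linarith
  have htyp : TypicalDecides n := by
    unfold TypicalDecides
    filter_upwards [typical_cont hn] with g hg
    exact decides_of g.continuous.measurable (fun x => g.norm_coe_le_norm x) hg
  refine ⟨fun p hp => ⟨fun h => ?_, all_of_bound⟩, fun x₀ O hO hacc => ⟨exists_caps hn hO hacc,
    fun η hη hη0 => ?_, ⟨fun h S hS p hp => ?_, fun h p hp => ?_⟩⟩, htyp⟩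
  · obtain ⟨g, hg⟩ := (dense_of_mem_residual (typical_cont hn)).nonempty
    have h1 : MemLp (ft g) (ENNReal.ofReal p) volume :=
      h g g.continuous.measurable ⟨‖g‖, fun x => g.norm_coe_le_norm x⟩
    exact bound_of_bd (hg.1 p hp (memLp_ftS h1
      (TS_meas g.continuous.measurable (fun x => g.norm_coe_le_norm x))))
  · obtain ⟨O', x, ρ, hOO, hP⟩ := exists_pts hO hacc
    obtain ⟨G, hGm, hG1, hGs, hGd, hGη, hGO, hD⟩ := core_smooth hn hP hη hη0
    have hGc : Measurable fun w : E n => (G w : ℂ) := Complex.measurable_ofReal.comp hGm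
    refine ⟨G, ⟨hG1, hGd, hGs, hGη, fun x hx => hGO _ fun h => hx ?_⟩,
      decides_of (g := restr G) (hGc.comp measurable_subtype_coe) (M := 1) (fun x => ?_) ?_⟩
    · rw [← hOO]
      exact h
    · unfold restr
      rw [Complex.norm_real, Real.norm_of_nonneg (hG1 x).1]
      exact (hG1 x).2
    · unfold restr
      rw [TS_T _ hGc]
      exact hD
  · exact h p hp _ (caps_meas hS) ⟨1, caps_le S⟩
  · obtain ⟨S, hS, hD⟩ := exists_caps hn hO hacc
    exact (hD.1 p (h2n.trans hp.le)).1 (h S hS p hp)

end Pool.Agent.Results.MP_6cbfb8_an.OneSingularPoint
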